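import Mathlib
import Pool.Agent.TH888.R.Base

set_option autoImplicit false

/-!
# Two shift families at almost every amplitude: Borel-Cantelli for pairs of exponents
-/

namespace Pool.Agent.Zk96.JP

open Finset Filter Topology MeasureTheory
open Pool.Agent.H447R2.ML (Sh sh_of ff_eq_floor)
open Pool.Agent.H305R2 (roughPart ff measurable_ff ff_nonneg ff_le_one)
open Pool.Agent.W66X (ysh measurable_ysh pert8 exp_ysh ae_of_exp')
open Pool.Agent.TH888.R (wt wt_nonneg VS ae_windows Pt pt_floor near_base ff01)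

/-- a shift family over an integer base -/
structure SF (a : ℕ) (g : ℕ → ℝ) : Prop where
  two : 2 ≤ a
  small : ∃ κ C : ℝ, 0 ≤ κ ∧ κ < a ∧ ∀ p, |g p| ≤ C * κ ^ p

/-- the joint bound for the pairs in `R` -/
def JB (a c : ℕ) (g g2 : ℕ → ℝ) (R : Set (ℕ × ℕ)) : Prop :=
  ∀ b0 : ℝ, ∃ K : ℝ, 0 < K ∧ ∃ P : ℕ, ∀ x ∈ R, P ≤ x.1 → P ≤ x.2 →
    ∫ t in Set.Ioc b0 (b0 + 1), ff x.1 (ysh a g x.1 t) * ff x.2 (ysh c g2 x.2 t) ≤
      K * (wt x.1 * wt x.2)

lemma bc {a c : ℕ} {g g2 : ℕ → ℝ} {R : Set (ℕ × ℕ)}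
    (hs : Summable fun x : R => wt x.1.1 * wt x.1.2) (h : JB a c g g2 R) (b0 : ℝ) :
    ∀ᵐ t ∂(volume.restrict (Set.Ioc b0 (b0 + 1))), ∃ P : ℕ, {x : ℕ × ℕ | x ∈ R ∧ P ≤ x.1 ∧ P ≤ x.2 ∧
      ff x.1 (ysh a g x.1 t) = 1 ∧ ff x.2 (ysh c g2 x.2 t) = 1}.Finite := by
  obtain ⟨K, hK, P, hP⟩ := h b0
  set μ := (volume : Measure ℝ).restrict (Set.Ioc b0 (b0 + 1)) with hμ
  have hm1 : ∀ p, Measurable fun t => ff p (ysh a g p t) := fun p =>
    (measurable_ff p).comp (measurable_ysh _ _ _)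
  have hm2 : ∀ p, Measurable fun t => ff p (ysh c g2 p t) := fun p =>
    (measurable_ff p).comp (measurable_ysh _ _ _)
  set E : ℕ × ℕ → Set ℝ := fun x => {t | P ≤ x.1 ∧ P ≤ x.2 ∧ ff x.1 (ysh a g x.1 t) = 1 ∧
    ff x.2 (ysh c g2 x.2 t) = 1} with hE
  have hEm : ∀ x, MeasurableSet (E x) := fun x => by
    refine (MeasurableSet.const _).inter ((MeasurableSet.const _).inter ?_)
    exact (measurableSet_eq_fun (hm1 _) measurable_const).inter
      (measurableSet_eq_fun (hm2 _) measurable_const)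
  have hint : ∀ x : ℕ × ℕ, Integrable (fun t => ff x.1 (ysh a g x.1 t) * ff x.2 (ysh c g2 x.2 t)) μ := by
    intro x
    refine Measure.integrableOn_of_bounded (M := 1) (by simp) ((hm1 _).mul (hm2 _)).aestronglyMeasurable ?_
    refine Eventually.of_forall fun t => ?_
    have h1 := ff_nonneg x.1 (ysh a g x.1 t)
    have h2 := ff_nonneg x.2 (ysh c g2 x.2 t)
    have h3 := ff_le_one x.1 (ysh a g x.1 t)
    have h4 := ff_le_one x.2 (ysh c g2 x.2 t)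
    rw [Real.norm_eq_abs, abs_of_nonneg (mul_nonneg h1 h2)]
    nlinarith
  have hreal : ∀ x ∈ R, μ.real (E x) ≤ K * (wt x.1 * wt x.2) := by
    intro x hx
    by_cases hPx : P ≤ x.1 ∧ P ≤ x.2
    · refine le_trans ?_ (hP x hx hPx.1 hPx.2)
      rw [← integral_indicator_one (hEm x)]
      refine integral_mono ((integrable_indicator_iff (hEm x)).2 (integrable_const _).integrableOn)
        (hint x) fun t => ?_
      by_cases ht : t ∈ E x
      · rw [Set.indicator_of_mem ht]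
        simp only [Pi.one_apply]
        rw [ht.2.2.1, ht.2.2.2, one_mul]
      · rw [Set.indicator_of_notMem ht]
        exact mul_nonneg (ff_nonneg _ _) (ff_nonneg _ _)
    · have : E x = ∅ := by
        ext t
        simp only [hE, Set.mem_setOf_eq, Set.mem_empty_iff_false, iff_false]
        exact fun h1 => hPx ⟨h1.1, h1.2.1⟩
      rw [this, measureReal_empty]
      have := wt_nonneg x.1
      have := wt_nonneg x.2
      positivity
  have hsum : Summable fun x : R => μ.real (E x.1) :=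
    Summable.of_nonneg_of_le (fun x => measureReal_nonneg) (fun x => hreal x.1 x.2) (hs.mul_left K)
  have htop : ∑' x : R, μ (E x.1) ≠ ⊤ := by
    have h1 := hsum.tsum_ofReal_ne_top
    have h2 : ∀ x : R, ENNReal.ofReal (μ.real (E x.1)) = μ (E x.1) := fun x =>
      ofReal_measureReal (measure_ne_top μ _)
    simpa only [h2] using h1
  filter_upwards [ae_finite_setOf_mem htop] with t ht
  refine ⟨P, (ht.image (Subtype.val)).subset ?_⟩
  intro x hx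
  exact ⟨⟨x, hx.1⟩, hx.2, rfl⟩

/-- almost every `t` avoids the integers -/
lemma noninteger {a : ℕ} (ha : 2 ≤ a) (g : ℕ → ℝ) :
    ∀ᵐ t : ℝ, ∀ p m : ℕ, Real.exp t * (a : ℝ) ^ p + g p ≠ m := by
  have hα0 : (0 : ℝ) < a := by
    have : (2 : ℝ) ≤ a := by exact_mod_cast ha
    linarith
  have hnull : volume (⋃ p : ℕ, ⋃ m : ℕ, {t : ℝ | Real.exp t * (a : ℝ) ^ p + g p = m}) = 0 := by
    refine Set.Countable.measure_zero ?_ volume
    refine Set.countable_iUnion fun p => Set.countable_iUnion fun m => ?_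
    refine Set.Subsingleton.countable ?_
    intro s hs t ht
    simp only [Set.mem_setOf_eq] at hs ht
    have h3 : Real.exp s * (a : ℝ) ^ p = Real.exp t * (a : ℝ) ^ p := by linarith
    exact Real.exp_injective (mul_right_cancel₀ (pow_pos hα0 p).ne' h3)
  have hae : ∀ᵐ t : ℝ, t ∉ ⋃ p : ℕ, ⋃ m : ℕ, {t : ℝ | Real.exp t * (a : ℝ) ^ p + g p = m} := by
    rw [ae_iff]
    refine measure_mono_null (fun t ht => ?_) hnull
    simpa only [Set.mem_setOf_eq, not_not] using ht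
  filter_upwards [hae] with t ht p m hm
  refine ht ?_
  simp only [Set.mem_iUnion]
  exact ⟨p, m, hm⟩

/-- from the phase functions to the integers -/
lemma ff_floor {a : ℕ} {g : ℕ → ℝ} (hf : SF a g) {t : ℝ}
    (ht : ∀ p m : ℕ, Real.exp t * (a : ℝ) ^ p + g p ≠ m) :
    ∃ P : ℕ, ∀ p ≥ P, ff p (ysh a g p t) =
      if (roughPart p ⌊Real.exp t * (a : ℝ) ^ p + g p⌋₊).Prime then 1 else 0 := by
  obtain ⟨h2, κ, C, hκ0, hκ, hg⟩ := hf
  have hα0 : (0 : ℝ) < a := by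
    have : (2 : ℝ) ≤ a := by exact_mod_cast h2
    linarith
  obtain ⟨P, hP⟩ := eventually_atTop.1 (pert8 hα0 hκ0 hκ hg t 8)
  exact ⟨P, fun p hp => ff_eq_floor (exp_ysh hα0 (hP p hp) le_rfl).2.1 (fun m => ht p m)⟩

/-- the pairs of large exponents -/
lemma large {a c : ℕ} {g g2 : ℕ → ℝ} (hf : SF a g) (hf2 : SF c g2) {R : Set (ℕ × ℕ)}
    (hs : Summable fun x : R => wt x.1.1 * wt x.1.2) (h : JB a c g g2 R) :
    ∀ᵐ β : ℝ, 0 < β → ∃ P : ℕ, {x : ℕ × ℕ | x ∈ R ∧ P ≤ x.1 ∧ P ≤ x.2 ∧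
      (roughPart x.1 ⌊β * (a : ℝ) ^ x.1 + g x.1⌋₊).Prime ∧
      (roughPart x.2 ⌊β * (c : ℝ) ^ x.2 + g2 x.2⌋₊).Prime}.Finite := by
  refine ae_of_exp' (P := fun β : ℝ => ∃ P : ℕ, {x : ℕ × ℕ | x ∈ R ∧ P ≤ x.1 ∧ P ≤ x.2 ∧
      (roughPart x.1 ⌊β * (a : ℝ) ^ x.1 + g x.1⌋₊).Prime ∧
      (roughPart x.2 ⌊β * (c : ℝ) ^ x.2 + g2 x.2⌋₊).Prime}.Finite) (ae_windows fun b0 => ?_)
  filter_upwards [bc hs h b0, ae_restrict_of_ae (noninteger hf.two g),
    ae_restrict_of_ae (noninteger hf2.two g2)] with t ht h1 h2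
  obtain ⟨P, hP⟩ := ht
  obtain ⟨P1, hP1⟩ := ff_floor hf h1
  obtain ⟨P2, hP2⟩ := ff_floor hf2 h2
  refine ⟨max P (max P1 P2), hP.subset ?_⟩
  rintro x ⟨hx, hx1, hx2, hx3, hx4⟩
  have e1 : P ≤ x.1 := (le_max_left _ _).trans hx1
  have e2 : P ≤ x.2 := (le_max_left _ _).trans hx2
  have e3 : P1 ≤ x.1 := (le_max_left _ _).trans ((le_max_right _ _).trans hx1)
  have e4 : P2 ≤ x.2 := (le_max_right _ _).trans ((le_max_right _ _).trans hx2)
  refine ⟨hx, e1, e2, ?_, ?_⟩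
  · rw [hP1 _ e3, if_pos hx3]
  · rw [hP2 _ e4, if_pos hx4]

/-- a bounded sum does not tend to infinity -/
lemma not_tendsto_VS {S : Set ℕ} {B : ℝ} (h : ∀ n, VS S n ≤ B) : ¬ Tendsto (VS S) atTop atTop := by
  intro ht
  obtain ⟨n, hn⟩ := (ht.eventually_gt_atTop B).exists
  exact absurd (h n) (not_le.2 hn)

/-- a row of a summable family -/
lemma row_fin {R : Set (ℕ × ℕ)} (hs : Summable fun x : R => wt x.1.1 * wt x.1.2) {n : ℕ}
    (hn : 2 ≤ n) : ¬ Tendsto (VS {q | (n, q) ∈ R}) atTop atTop := by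
  classical
  have hwn : 0 < wt n := by
    unfold Pool.Agent.TH888.R.wt
    have : (2 : ℝ) ≤ n := by exact_mod_cast hn
    exact div_pos (Real.log_pos (by linarith)) (by linarith)
  have hs0 : 0 ≤ ∑' x : R, wt x.1.1 * wt x.1.2 :=
    tsum_nonneg fun x => mul_nonneg (wt_nonneg _) (wt_nonneg _)
  refine not_tendsto_VS (B := (∑' x : R, wt x.1.1 * wt x.1.2) / wt n) fun N => ?_
  rw [le_div_iff₀ hwn]
  unfold Pool.Agent.TH888.R.VS
  rw [← Finset.sum_filter, Finset.sum_mul]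
  set T := (range (N + 1)).filter (fun q => q ∈ {q | (n, q) ∈ R} ∧ q.Prime) with hT
  have hmem : ∀ q ∈ T, (n, q) ∈ R := fun q hq => (mem_filter.1 hq).2.1
  have h1 : ∑ q ∈ T, wt q * wt n = ∑ x ∈ T.attach.image (fun q => (⟨(n, q.1), hmem q.1 q.2⟩ : R)),
      wt x.1.1 * wt x.1.2 := by
    rw [Finset.sum_image]
    · rw [← Finset.sum_attach]
      exact Finset.sum_congr rfl fun q _ => mul_comm _ _
    · intro q _ q' _ hqq
      have := congrArg (fun x : R => x.1.2) hqq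
      exact Subtype.ext this
  rw [h1]
  exact hs.sum_le_tsum _ fun x _ => mul_nonneg (wt_nonneg _) (wt_nonneg _)

lemma swap_summable {R : Set (ℕ × ℕ)} (hs : Summable fun x : R => wt x.1.1 * wt x.1.2) :
    Summable fun x : (Prod.swap ⁻¹' R : Set (ℕ × ℕ)) => wt x.1.1 * wt x.1.2 := by
  have h1 := (Equiv.subtypeEquiv (Equiv.prodComm ℕ ℕ) (p := fun x => x ∈ (Prod.swap ⁻¹' R : Set (ℕ × ℕ)))
    (q := fun x => x ∈ R) (fun x => Iff.rfl)).summable_iff.2 hs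
  refine h1.congr fun x => ?_
  simp only [Function.comp, Equiv.subtypeEquiv_apply]
  exact mul_comm _ _

/-- **Borel-Cantelli for pairs.** -/
theorem joint {a c : ℕ} {g g2 : ℕ → ℝ} (hf : SF a g) (hf2 : SF c g2) {R : Set (ℕ × ℕ)}
    (hR : ∀ x ∈ R, x.1.Prime ∧ x.2.Prime)
    (hs : Summable fun x : R => wt x.1.1 * wt x.1.2) (h : JB a c g g2 R) :
    ∀ᵐ β : ℝ, 0 < β → {x : ℕ × ℕ | x ∈ R ∧
      (roughPart x.1 ⌊β * (a : ℝ) ^ x.1 + g x.1⌋₊).Prime ∧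
      (roughPart x.2 ⌊β * (c : ℝ) ^ x.2 + g2 x.2⌋₊).Prime}.Finite := by
  have hA : ∀ n : ℕ, ∀ᵐ β : ℝ, 0 < β → 2 ≤ n → {q : ℕ | q.Prime ∧ q ∈ {q | (n, q) ∈ R} ∧
      (roughPart q ⌊β * (c : ℝ) ^ q + g2 q⌋₊).Prime}.Finite := by
    intro n
    obtain ⟨h2, κ, C, hκ0, hκ, hg⟩ := hf2
    have hc1 : (1 : ℝ) < c := by exact_mod_cast (by omega : 1 < c)
    filter_upwards [pt_floor hc1 hκ0 hκ hg (near_base h2 hκ0 hκ hg) {q | (n, q) ∈ R}] with β hβ h0 hn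
    exact (hβ h0).fin (row_fin hs hn)
  have hB : ∀ n : ℕ, ∀ᵐ β : ℝ, 0 < β → 2 ≤ n → {q : ℕ | q.Prime ∧ q ∈ {q | (q, n) ∈ R} ∧
      (roughPart q ⌊β * (a : ℝ) ^ q + g q⌋₊).Prime}.Finite := by
    intro n
    obtain ⟨h2, κ, C, hκ0, hκ, hg⟩ := hf
    have hc1 : (1 : ℝ) < a := by exact_mod_cast (by omega : 1 < a)
    filter_upwards [pt_floor hc1 hκ0 hκ hg (near_base h2 hκ0 hκ hg) {q | (q, n) ∈ R}] with β hβ h0 hn
    exact (hβ h0).fin (row_fin (swap_summable hs) hn)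
  filter_upwards [large hf hf2 hs h, ae_all_iff.2 hA, ae_all_iff.2 hB] with β h1 h2 h3 h0
  obtain ⟨P, hP⟩ := h1 h0
  have h4 : (⋃ n ∈ Set.Iio P, (if 2 ≤ n then (fun q => ((n, q) : ℕ × ℕ)) ''
      {q : ℕ | q.Prime ∧ q ∈ {q | (n, q) ∈ R} ∧
      (roughPart q ⌊β * (c : ℝ) ^ q + g2 q⌋₊).Prime} else ∅)).Finite := by
    refine (Set.finite_Iio P).biUnion fun n _ => ?_
    split_ifs with hn
    · exact (h2 n h0 hn).image _
    · exact Set.finite_empty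
  have h5 : (⋃ n ∈ Set.Iio P, (if 2 ≤ n then (fun q => ((q, n) : ℕ × ℕ)) ''
      {q : ℕ | q.Prime ∧ q ∈ {q | (q, n) ∈ R} ∧
      (roughPart q ⌊β * (a : ℝ) ^ q + g q⌋₊).Prime} else ∅)).Finite := by
    refine (Set.finite_Iio P).biUnion fun n _ => ?_
    split_ifs with hn
    · exact (h3 n h0 hn).image _
    · exact Set.finite_empty
  refine ((hP.union h4).union h5).subset ?_
  rintro ⟨p, q⟩ ⟨hx, hx1, hx2⟩
  obtain ⟨hp, hq⟩ := hR _ hx
  by_cases e1 : P ≤ p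
  · by_cases e2 : P ≤ q
    · exact Or.inl (Or.inl ⟨hx, e1, e2, hx1, hx2⟩)
    · refine Or.inr ?_
      simp only [Set.mem_iUnion]
      refine ⟨q, not_le.1 e2, ?_⟩
      rw [if_pos hq.two_le]
      exact ⟨p, ⟨hp, hx, hx1⟩, rfl⟩
  · refine Or.inl (Or.inr ?_)
    simp only [Set.mem_iUnion]
    refine ⟨p, not_le.1 e1, ?_⟩
    rw [if_pos hp.two_le]
    exact ⟨q, ⟨hq, hx, hx2⟩, rfl⟩

end Pool.Agent.Zk96.JP
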