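import Mathlib
import Pool.Agent.Zk96.JP.Pair
import Pool.Agent.Zk96.JP.Near2
import Pool.Agent.Zk96.JP.BC

set_option autoImplicit false

/-!
# Two shift families: the joint bound
-/

namespace Pool.Agent.Zk96.JP

open Finset Filter Topology MeasureTheory
open Pool.Agent.H447R2.ML (Sh sh_of)
open Pool.Agent.H305R2 (roughPart ff measurable_ff ff_nonneg ff_le_one)
open Pool.Agent.W66X (ysh measurable_ysh)
open Pool.Agent.TH888.R (wt wt_nonneg)

lemma log_small {δ : ℝ} (hδ : 0 < δ) : ∃ P : ℕ, ∀ q ≥ P,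
    64 * (Real.log q * Real.log (Real.log q)) ≤ δ * q := by
  have h1 : ∀ᶠ x : ℝ in atTop, ‖Real.log x ^ 2‖ ≤ (δ / 64) * ‖x‖ :=
    (Real.isLittleO_pow_log_id_atTop (n := 2)).bound (by positivity)
  have h2 := tendsto_natCast_atTop_atTop (R := ℝ) |>.eventually h1
  obtain ⟨P, hP⟩ := eventually_atTop.1 (h2.and (eventually_ge_atTop 3))
  refine ⟨P, fun q hq => ?_⟩
  obtain ⟨h3, h4⟩ := hP q hq
  have h5 : (3 : ℝ) ≤ q := by exact_mod_cast h4
  have hl : 1 ≤ Real.log q := by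
    rw [Real.le_log_iff_exp_le (by linarith)]
    linarith [Real.exp_one_lt_d9]
  have hll : Real.log (Real.log q) ≤ Real.log q := by
    have := Real.log_le_sub_one_of_pos (show 0 < Real.log q by linarith)
    linarith
  rw [Real.norm_eq_abs, Real.norm_eq_abs, abs_of_nonneg (by positivity),
    abs_of_nonneg (by positivity)] at h3
  nlinarith

lemma far {a c : ℕ} {g g2 : ℕ → ℝ} (hf : SF a g) (hf2 : SF c g2) {δ : ℝ} (hδ : 0 < δ) (b0 : ℝ) :
    ∃ K : ℝ, 0 < K ∧ ∃ P : ℕ, ∀ p q : ℕ, P ≤ p → P ≤ q →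
    δ * q ≤ Real.log c * q - Real.log a * p →
    ∫ t in Set.Ioc b0 (b0 + 1), ff p (ysh a g p t) * ff q (ysh c g2 q t) ≤ K * (wt p * wt q) := by
  obtain ⟨h2, κ, C, hκ0, hκ, hg⟩ := hf
  obtain ⟨h22, κ2, C2, hκ20, hκ2, hg2⟩ := hf2
  have ha1 : (1 : ℝ) < a := by exact_mod_cast (by omega : 1 < a)
  have hc1 : (1 : ℝ) < c := by exact_mod_cast (by omega : 1 < c)
  obtain ⟨K, hK, P0, hP0⟩ := pair2 (a := Real.log a) (c := Real.log c) (a0 := b0 - 1) (a1 := b0 + 2)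
    (b0 := b0) (b1 := b0 + 1) (Real.log_pos ha1) (by linarith) (by linarith)
  obtain ⟨P1, hP1⟩ := log_small hδ
  obtain ⟨P2, hP2⟩ := eventually_atTop.1 (sh_of (by linarith : (0 : ℝ) < a) hκ0 hκ hg (b0 - 1) (b0 + 2))
  obtain ⟨P3, hP3⟩ := eventually_atTop.1 (sh_of (by linarith : (0 : ℝ) < c) hκ20 hκ2 hg2 (b0 - 1) (b0 + 2))
  refine ⟨2 * K / δ, by positivity, max P0 (max P1 (max P2 (max P3 3))), fun p q hp hq hgap => ?_⟩
  simp only [max_le_iff] at hp hq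
  have hq3 : (3 : ℝ) ≤ q := by exact_mod_cast hq.2.2.2.2
  have hp3 : (3 : ℝ) ≤ p := by exact_mod_cast hp.2.2.2.2
  have h1 := hP0 p q hp.1 hq.1 _ _ _ _ (hP2 p hp.2.2.1) (hP3 q hq.2.2.2.1)
    ((hP1 q hq.2.1).trans hgap) b0 (b0 + 1) le_rfl (by linarith) le_rfl
  refine h1.trans ?_
  have hlp : 0 ≤ Real.log p / p := div_nonneg (Real.log_nonneg (by linarith)) (by linarith)
  have hlq : 0 ≤ Real.log q := Real.log_nonneg (by linarith)
  have hδq : 0 < δ * q := by positivity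
  have h3 : Real.log q / (Real.log c * q - Real.log a * p) ≤ Real.log q / (δ * q) :=
    div_le_div_of_nonneg_left hlq hδq hgap
  have h4 : (b0 + 1 - b0) + 1 / (p : ℝ) ≤ 2 := by
    have : 1 / (p : ℝ) ≤ 1 / 3 := one_div_le_one_div_of_le (by norm_num) hp3
    linarith
  have h40 : 0 ≤ (b0 + 1 - b0) + 1 / (p : ℝ) := by
    have : 0 ≤ 1 / (p : ℝ) := by positivity
    linarith
  calc K * ((b0 + 1 - b0) + 1 / p) * (Real.log p / p) *
        (Real.log q / (Real.log c * q - Real.log a * p))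
      ≤ K * 2 * (Real.log p / p) * (Real.log q / (δ * q)) := by
        refine mul_le_mul (mul_le_mul_of_nonneg_right (mul_le_mul_of_nonneg_left h4 hK.le) hlp) h3
          (div_nonneg hlq (hδq.le.trans hgap)) (by positivity)
    _ = 2 * K / δ * (wt p * wt q) := by
        unfold Pool.Agent.TH888.R.wt
        field_simp

/-- different bases, away from the ray `a ^ p = c ^ q` -/
theorem jb_diff {a c : ℕ} {g g2 : ℕ → ℝ} (hf : SF a g) (hf2 : SF c g2) {R : Set (ℕ × ℕ)} {δ : ℝ}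
    (hδ : 0 < δ) (hR : ∀ x ∈ R, δ * (x.1 + x.2) ≤ |Real.log c * x.2 - Real.log a * x.1|) :
    JB a c g g2 R := by
  intro b0
  obtain ⟨K1, hK1, P1, h1⟩ := far hf hf2 hδ b0
  obtain ⟨K2, hK2, P2, h2⟩ := far hf2 hf hδ b0
  refine ⟨max K1 K2, lt_max_of_lt_left hK1, max P1 P2, fun x hx hx1 hx2 => ?_⟩
  simp only [max_le_iff] at hx1 hx2
  have hw : 0 ≤ wt x.1 * wt x.2 := mul_nonneg (wt_nonneg _) (wt_nonneg _)
  have h3 := hR x hx
  have h01 : (0 : ℝ) ≤ x.1 := Nat.cast_nonneg _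
  have h02 : (0 : ℝ) ≤ x.2 := Nat.cast_nonneg _
  rcases abs_cases (Real.log c * x.2 - Real.log a * x.1) with ⟨he, _⟩ | ⟨he, _⟩
  · rw [he] at h3
    refine (h1 x.1 x.2 hx1.1 hx2.1 (le_trans ?_ h3)).trans
      (mul_le_mul_of_nonneg_right (le_max_left _ _) hw)
    nlinarith
  · rw [he] at h3
    have h4 := h2 x.2 x.1 hx2.2 hx1.2 (le_trans (by nlinarith) (h3.trans_eq (by ring)))
    simp only [mul_comm (ff x.2 _)] at h4
    rw [mul_comm (wt x.2)] at h4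
    exact h4.trans (mul_le_mul_of_nonneg_right (le_max_right _ _) hw)

/-- the property of the shifts over the same base -/
def GapP (a : ℕ) (g g2 : ℕ → ℝ) (ok : ℕ → ℕ → Prop) : Prop :=
  ∃ ε : ℝ, 0 < ε ∧ ε ≤ 1 ∧ ∃ P : ℕ, ∀ p q : ℕ, P ≤ p → p ≤ q → (q : ℝ) - p ≤ ε * p → ok p q →
    (1 ≤ g2 q - (a : ℝ) ^ (q - p) * g p ∨ g2 q - (a : ℝ) ^ (q - p) * g p < -(a : ℝ) ^ (q - p))

lemma half_same {a : ℕ} {g g2 : ℕ → ℝ} (hf : SF a g) (hf2 : SF a g2) {ok : ℕ → ℕ → Prop}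
    (hG : GapP a g g2 ok) (b0 : ℝ) : ∃ K : ℝ, 0 < K ∧ ∃ P : ℕ, ∀ p q : ℕ, P ≤ p → p ≤ q → ok p q →
    ∫ t in Set.Ioc b0 (b0 + 1), ff p (ysh a g p t) * ff q (ysh a g2 q t) ≤ K * (wt p * wt q) := by
  obtain ⟨ε, hε, hε1, P0, hP0⟩ := hG
  have ha1 : (1 : ℝ) < a := by
    have := hf.two
    exact_mod_cast (by omega : 1 < a)
  have hla : 0 < Real.log a := Real.log_pos ha1
  obtain ⟨K1, hK1, P1, h1⟩ := far hf hf2 (δ := Real.log a * (ε / (1 + ε))) (by positivity) b0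
  obtain ⟨h2, κ, C, hκ0, hκ, hg⟩ := hf
  obtain ⟨_, κ2, C2, hκ20, hκ2, hg2⟩ := hf2
  obtain ⟨K2, hK2, P2, hP2⟩ := near2 h2 hκ0 hκ hκ20 hκ2 hg hg2 b0
  refine ⟨max K1 (2 * K2), lt_max_of_lt_left hK1, max P0 (max P1 (max P2 3)), fun p q hp hpq hok => ?_⟩
  simp only [max_le_iff] at hp
  have hp3 : (3 : ℝ) ≤ p := by exact_mod_cast hp.2.2.2
  have hpq' : (p : ℝ) ≤ q := by exact_mod_cast hpq
  have hq0 : (0 : ℝ) < q := by linarith
  have hw : 0 ≤ wt p * wt q := mul_nonneg (wt_nonneg _) (wt_nonneg _)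
  by_cases hc : (q : ℝ) - p ≤ ε * p
  · have hq2 : q ≤ 2 * p := by
      have : (q : ℝ) ≤ 2 * p := by nlinarith
      exact_mod_cast this
    have h3 := hP2 p hp.2.2.1 q hpq hq2 (hP0 p q hp.1 hpq hc hok)
    refine h3.trans ?_
    have h4 : (Real.log p / p) ^ 2 ≤ 2 * (wt p * wt q) := by
      unfold Pool.Agent.TH888.R.wt
      have hl : Real.log p ≤ Real.log q := Real.log_le_log (by linarith) hpq'
      have hl0 : 0 ≤ Real.log p := Real.log_nonneg (by linarith)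
      have h5 : Real.log p / p ≤ 2 * (Real.log q / q) := by
        rw [div_le_iff₀ (by linarith)]
        have h6 : (q : ℝ) ≤ 2 * p := by exact_mod_cast hq2
        have h7 : 2 * (Real.log q / q) * p = Real.log q * (2 * p / q) := by ring
        rw [h7]
        have h8 : 1 ≤ 2 * (p : ℝ) / q := by rw [le_div_iff₀ hq0]; linarith
        nlinarith
      have h9 : 0 ≤ Real.log p / p := div_nonneg hl0 (by linarith)
      nlinarith
    calc K2 * (Real.log p / p) ^ 2 ≤ K2 * (2 * (wt p * wt q)) := mul_le_mul_of_nonneg_left h4 hK2.le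
      _ = 2 * K2 * (wt p * wt q) := by ring
      _ ≤ _ := mul_le_mul_of_nonneg_right (le_max_right _ _) hw
  · rw [not_le] at hc
    refine (h1 p q hp.2.1 (hp.2.1.trans hpq) ?_).trans (mul_le_mul_of_nonneg_right (le_max_left _ _) hw)
    have h3 : ε / (1 + ε) * q ≤ q - p := by
      rw [div_mul_eq_mul_div, div_le_iff₀ (by linarith)]
      nlinarith
    nlinarith

/-- the same base -/
theorem jb_same {a : ℕ} {g g2 : ℕ → ℝ} (hf : SF a g) (hf2 : SF a g2) {ok : ℕ → ℕ → Prop}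
    (hG : GapP a g g2 ok) (hG2 : GapP a g2 g ok) {R : Set (ℕ × ℕ)}
    (hR : ∀ x ∈ R, ok x.1 x.2 ∧ ok x.2 x.1) : JB a a g g2 R := by
  intro b0
  obtain ⟨K1, hK1, P1, h1⟩ := half_same hf hf2 hG b0
  obtain ⟨K2, hK2, P2, h2⟩ := half_same hf2 hf hG2 b0
  refine ⟨max K1 K2, lt_max_of_lt_left hK1, max P1 P2, fun x hx hx1 hx2 => ?_⟩
  simp only [max_le_iff] at hx1 hx2
  have hw : 0 ≤ wt x.1 * wt x.2 := mul_nonneg (wt_nonneg _) (wt_nonneg _)
  rcases le_total x.1 x.2 with h | h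
  · exact (h1 x.1 x.2 hx1.1 h (hR x hx).1).trans (mul_le_mul_of_nonneg_right (le_max_left _ _) hw)
  · have h4 := h2 x.2 x.1 hx2.2 h (hR x hx).2
    simp only [mul_comm (ff x.2 _)] at h4
    rw [mul_comm (wt x.2)] at h4
    exact h4.trans (mul_le_mul_of_nonneg_right (le_max_right _ _) hw)

end Pool.Agent.Zk96.JP
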