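import Mathlib
import Pool.Agent.Zk96.JP.Bnd

set_option autoImplicit false

/-!
# The shifts of two different pairs over the same base
-/

namespace Pool.Agent.Zk96.JP

open Finset Filter Topology MeasureTheory

/-- the shift of the pair `(a, b)` -/
noncomputable def gs (a : ℕ) (b : ℤ) (p : ℕ) : ℝ := -((b : ℝ) ^ p / ((a : ℝ) - b))

/-- the admissible pairs of exponents for two pairs over the same base -/
def okP (b b' : ℤ) (p q : ℕ) : Prop := Odd p ∧ Odd q ∧ (b ≠ b' ∨ p ≠ q)

lemma sf_gs {a : ℕ} {b : ℤ} (ha : 2 ≤ a) (h : |b| < a) : SF a (gs a b) := by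
  have hbr : |(b : ℝ)| < (a : ℝ) := by exact_mod_cast h
  have hab : (0 : ℝ) < (a : ℝ) - b := by
    have := le_abs_self (b : ℝ)
    linarith
  refine ⟨ha, |(b : ℝ)|, 1 / ((a : ℝ) - b), abs_nonneg _, hbr, fun p => ?_⟩
  unfold gs
  rw [abs_neg, abs_div, abs_pow, abs_of_pos hab]
  exact le_of_eq (by ring)

lemma ev1 {A s r : ℝ} (hA : 0 < A) (hr : 0 ≤ r) (hrs : r < s) (hs : 1 < s) :
    ∀ᶠ p : ℕ in atTop, 2 < s ^ p / (2 * A) - r ^ p := by
  have hs0 : 0 < s := by linarith
  have h1 : ∀ᶠ p : ℕ in atTop, (r / s) ^ p < 1 / (4 * A) :=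
    (tendsto_pow_atTop_nhds_zero_of_lt_one (div_nonneg hr hs0.le)
      ((div_lt_one hs0).2 hrs)).eventually_lt_const (by positivity)
  have h2 : ∀ᶠ p : ℕ in atTop, 8 * A < s ^ p :=
    (tendsto_pow_atTop_atTop_of_one_lt hs).eventually_gt_atTop _
  filter_upwards [h1, h2] with p hp1 hp2
  have hsp : 0 < s ^ p := pow_pos hs0 p
  have e : r ^ p = s ^ p * (r / s) ^ p := by rw [div_pow]; field_simp
  rw [e]
  have h3 : s ^ p * (r / s) ^ p ≤ s ^ p * (1 / (4 * A)) := mul_le_mul_of_nonneg_left hp1.le hsp.le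
  have h4 : s ^ p / (2 * A) - s ^ p * (1 / (4 * A)) = s ^ p / (4 * A) := by field_simp; ring
  have h5 : 2 < s ^ p / (4 * A) := by rw [lt_div_iff₀ (by positivity)]; linarith
  linarith

lemma of_abs {X k : ℝ} (hX : 0 ≤ X) (h : X + 1 < |k|) : 1 ≤ k ∨ k < -X := by
  rcases lt_abs.1 h with h | h
  · exact Or.inl (by linarith)
  · exact Or.inr (by linarith)

/-- the pairs `(2, 1)` and `(2, -1)` at the same odd exponent -/
theorem gap_mersenne : GapP 2 (gs 2 1) (gs 2 (-1)) (fun p q => p = q ∧ Odd p) ∧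
    GapP 2 (gs 2 (-1)) (gs 2 1) (fun p q => p = q ∧ Odd p) := by
  have e1 : ∀ p : ℕ, gs 2 1 p = -1 := fun p => by
    unfold gs
    norm_num
  have e2 : ∀ p : ℕ, Odd p → gs 2 (-1) p = 1 / 3 := fun p hp => by
    unfold gs
    push_cast
    rw [hp.neg_one_pow]
    norm_num
  constructor
  · refine ⟨1, one_pos, le_rfl, 0, fun p q _ _ _ hok => ?_⟩
    obtain ⟨rfl, hp⟩ := hok
    rw [e1, e2 p hp, Nat.sub_self]
    left
    norm_num
  · refine ⟨1, one_pos, le_rfl, 0, fun p q _ _ _ hok => ?_⟩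
    obtain ⟨rfl, hp⟩ := hok
    rw [e1, e2 p hp, Nat.sub_self]
    right
    norm_num

theorem gap {a : ℕ} {b b' : ℤ} (ha : 2 ≤ a) (hb : |b| < a) (hb' : |b'| < a)
    (h2 : 2 ≤ |b| ∨ 2 ≤ |b'|) : GapP a (gs a b) (gs a b') (okP b b') := by
  set A : ℝ := (a : ℝ) with hA
  set B : ℝ := (b : ℝ) with hB
  set B' : ℝ := (b' : ℝ) with hB'
  set s : ℝ := |B| with hs
  set r : ℝ := |B'| with hr
  have hA2 : 2 ≤ A := by rw [hA]; exact_mod_cast ha
  have hA0 : 0 < A := by linarith
  have hsZ : s = ((|b| : ℤ) : ℝ) := by rw [hs, hB]; push_cast; rfl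
  have hrZ : r = ((|b'| : ℤ) : ℝ) := by rw [hr, hB']; push_cast; rfl
  have hs0 : 0 ≤ s := abs_nonneg _
  have hr0 : 0 ≤ r := abs_nonneg _
  have hsA : s + 1 ≤ A := by rw [hsZ, hA]; exact_mod_cast hb
  have hrA : r + 1 ≤ A := by rw [hrZ, hA]; exact_mod_cast hb'
  have hsB := abs_le.1 (le_refl |B|)
  have hrB := abs_le.1 (le_refl |B'|)
  rw [← hs] at hsB
  rw [← hr] at hrB
  have hAB1 : 1 ≤ A - B := by linarith
  have hAB2 : A - B ≤ 2 * A := by linarith
  have hAB1' : 1 ≤ A - B' := by linarith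
  have hAB2' : A - B' ≤ 2 * A := by linarith
  -- the two terms
  have hD : ∀ p h : ℕ, |gs a b' (p + h) - A ^ h * gs a b p| =
      |A ^ h * (B ^ p / (A - B)) - B' ^ (p + h) / (A - B')| := by
    intro p h
    unfold gs
    congr 1
    ring
  have hU : ∀ p h : ℕ, A ^ h * (s ^ p / (2 * A)) ≤ |A ^ h * (B ^ p / (A - B))| ∧
      |A ^ h * (B ^ p / (A - B))| ≤ A ^ h * s ^ p := by
    intro p h
    have e : |A ^ h * (B ^ p / (A - B))| = A ^ h * (s ^ p / (A - B)) := by
      rw [abs_mul, abs_div, abs_pow B p, abs_of_pos (pow_pos hA0 h), abs_of_pos (by linarith : 0 < A - B)]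
    rw [e]
    constructor
    · refine mul_le_mul_of_nonneg_left ?_ (by positivity)
      exact div_le_div_of_nonneg_left (by positivity) (by linarith) hAB2
    · refine mul_le_mul_of_nonneg_left ?_ (by positivity)
      exact div_le_self (by positivity) hAB1
  have hV : ∀ m : ℕ, r ^ m / (2 * A) ≤ |B' ^ m / (A - B')| ∧ |B' ^ m / (A - B')| ≤ r ^ m := by
    intro m
    have e : |B' ^ m / (A - B')| = r ^ m / (A - B') := by
      rw [abs_div, abs_pow B' m, abs_of_pos (by linarith : 0 < A - B')]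
    rw [e]
    exact ⟨div_le_div_of_nonneg_left (by positivity) (by linarith) hAB2',
      div_le_self (by positivity) hAB1'⟩
  have hX : ∀ h : ℕ, (1 : ℝ) ≤ A ^ h := fun h => one_le_pow₀ (by linarith)
  rcases lt_trichotomy r s with hrs | hrs | hrs
  · -- the first shift dominates
    have hs2 : (2 : ℝ) ≤ s := by
      rw [hsZ]
      have h3 : |b'| < |b| := by
        rw [hrZ, hsZ] at hrs
        exact_mod_cast hrs
      have h4 : 2 ≤ |b| := by rcases h2 with h | h <;> omega
      exact_mod_cast h4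
    obtain ⟨P, hP⟩ := eventually_atTop.1 (ev1 hA0 hr0 hrs (by linarith))
    refine ⟨1, one_pos, le_rfl, P, fun p q hp hpq _ _ => ?_⟩
    obtain ⟨h, rfl⟩ := Nat.exists_eq_add_of_le hpq
    rw [Nat.add_sub_cancel_left, ← hA]
    refine of_abs (pow_nonneg hA0.le h) ?_
    rw [hD]
    have h3 := hP p hp
    have h4 := (hU p h).1
    have h5 := (hV (p + h)).2
    have h6 : r ^ (p + h) ≤ A ^ h * r ^ p := by
      rw [pow_add, mul_comm]
      exact mul_le_mul_of_nonneg_right (pow_le_pow_left₀ hr0 (by linarith) h) (by positivity)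
    have h7 := abs_sub_abs_le_abs_sub (A ^ h * (B ^ p / (A - B))) (B' ^ (p + h) / (A - B'))
    have h8 := hX h
    have h9 : A ^ h * 2 < A ^ h * (s ^ p / (2 * A) - r ^ p) := mul_lt_mul_of_pos_left h3 (by linarith)
    rw [mul_sub] at h9
    linarith
  · -- equal absolute values
    have hs2 : (2 : ℝ) ≤ s := by
      have h3 : |b'| = |b| := by
        rw [hrZ, hsZ] at hrs
        exact_mod_cast hrs
      rw [hsZ]
      have h4 : 2 ≤ |b| := by rcases h2 with h | h <;> omega
      exact_mod_cast h4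
    have hev : ∀ᶠ p : ℕ in atTop, 4 * A ^ 2 < s ^ p :=
      (tendsto_pow_atTop_atTop_of_one_lt (by linarith)).eventually_gt_atTop _
    obtain ⟨P, hP⟩ := eventually_atTop.1 hev
    refine ⟨1, one_pos, le_rfl, P, fun p q hp hpq _ hok => ?_⟩
    obtain ⟨h, rfl⟩ := Nat.exists_eq_add_of_le hpq
    obtain ⟨hpo, hqo, hne⟩ := hok
    have hhe : Even h := by
      rcases Nat.even_or_odd h with h3 | h3
      · exact h3
      · exact absurd hqo (Nat.not_odd_iff_even.2 (hpo.add_odd h3))
    rw [Nat.add_sub_cancel_left, ← hA]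
    refine of_abs (pow_nonneg hA0.le h) ?_
    rw [hD]
    have h3 := hP p hp
    have h8 := hX h
    have hsp : 0 < s ^ p := pow_pos (by linarith) p
    rcases abs_eq_abs.1 (show |B'| = |B| from hrs) with he | he
    · -- the same pair
      have hbb : b' = b := by
        rw [hB, hB'] at he
        exact_mod_cast he
      have hh1 : 1 ≤ h := by
        rcases hne with h4 | h4
        · exact absurd hbb.symm h4
        · omega
      obtain ⟨k, rfl⟩ : ∃ k, h = k + 1 := ⟨h - 1, by omega⟩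
      have e : A ^ (k + 1) * (B ^ p / (A - B)) - B' ^ (p + (k + 1)) / (A - B') =
          B ^ p * ((A ^ (k + 1) - B ^ (k + 1)) / (A - B)) := by
        rw [he, pow_add B p (k + 1)]; ring
      rw [e, abs_mul, abs_pow]
      have h5 : B ^ (k + 1) ≤ A ^ k * (A - 1) := by
        calc B ^ (k + 1) ≤ |B ^ (k + 1)| := le_abs_self _
          _ = s ^ k * s := by rw [abs_pow, ← hs, pow_succ]
          _ ≤ A ^ k * (A - 1) := mul_le_mul (pow_le_pow_left₀ hs0 (by linarith) k) (by linarith)
              hs0 (by positivity)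
      have h6 : A ^ k ≤ A ^ (k + 1) - B ^ (k + 1) := by
        have : A ^ (k + 1) = A ^ k * A := pow_succ _ _
        rw [this]
        nlinarith
      have h7 : A ^ k / (2 * A) ≤ |(A ^ (k + 1) - B ^ (k + 1)) / (A - B)| := by
        refine le_trans ?_ (le_abs_self _)
        calc A ^ k / (2 * A) ≤ A ^ k / (A - B) :=
              div_le_div_of_nonneg_left (by positivity) (by linarith) hAB2
          _ ≤ _ := div_le_div_of_nonneg_right h6 (by linarith)
      have h9 : s ^ p * (A ^ k / (2 * A)) ≤ |B| ^ p * |(A ^ (k + 1) - B ^ (k + 1)) / (A - B)| :=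
        mul_le_mul_of_nonneg_left h7 hsp.le
      refine lt_of_lt_of_le ?_ h9
      have hk : 0 < A ^ k := pow_pos hA0 k
      have h10 : 4 * A ^ 2 * (A ^ k / (2 * A)) < s ^ p * (A ^ k / (2 * A)) :=
        mul_lt_mul_of_pos_right h3 (by positivity)
      have h11 : 4 * A ^ 2 * (A ^ k / (2 * A)) = 2 * A ^ (k + 1) := by
        rw [pow_succ]; field_simp; ring
      linarith
    · -- opposite signs
      have e1 : B' ^ (p + h) = -(B ^ p * B ^ h) := by
        rw [he, hqo.neg_pow, pow_add]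
      have hBh : 0 ≤ B ^ h := hhe.pow_nonneg B
      have e : A ^ h * (B ^ p / (A - B)) - B' ^ (p + h) / (A - B') =
          B ^ p * (A ^ h / (A - B) + B ^ h / (A - B')) := by
        rw [e1]; ring
      rw [e, abs_mul, abs_pow]
      have h7 : A ^ h / (2 * A) ≤ |A ^ h / (A - B) + B ^ h / (A - B')| := by
        refine le_trans ?_ (le_abs_self _)
        have h5 : A ^ h / (2 * A) ≤ A ^ h / (A - B) :=
          div_le_div_of_nonneg_left (by positivity) (by linarith) hAB2
        have h6 : 0 ≤ B ^ h / (A - B') := div_nonneg hBh (by linarith)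
        linarith
      have h9 : s ^ p * (A ^ h / (2 * A)) ≤ |B| ^ p * |A ^ h / (A - B) + B ^ h / (A - B')| :=
        mul_le_mul_of_nonneg_left h7 hsp.le
      refine lt_of_lt_of_le ?_ h9
      have h10 : 4 * A ^ 2 * (A ^ h / (2 * A)) < s ^ p * (A ^ h / (2 * A)) :=
        mul_lt_mul_of_pos_right h3 (by positivity)
      have h11 : 4 * A ^ 2 * (A ^ h / (2 * A)) = 2 * A * A ^ h := by
        field_simp; ring
      nlinarith
  · -- the second shift dominates
    have hrs' : |b| < |b'| := by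
      rw [hrZ, hsZ] at hrs
      exact_mod_cast hrs
    have hr2Z : 2 ≤ |b'| := by rcases h2 with h | h <;> omega
    have hr2 : (2 : ℝ) ≤ r := by rw [hrZ]; exact_mod_cast hr2Z
    set m : ℝ := max s 1 with hm
    have hm1 : 1 ≤ m := le_max_right _ _
    have hm0 : 0 < m := by linarith
    have hmr : m < r := max_lt hrs (by linarith)
    have hρ : 1 < r / m := (one_lt_div hm0).2 hmr
    have hlρ : 0 < Real.log (r / m) := Real.log_pos hρ
    have hlA : 0 < Real.log A := Real.log_pos (by linarith)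
    set ε : ℝ := min 1 (Real.log (r / m) / (2 * Real.log A)) with hε
    have hε0 : 0 < ε := lt_min one_pos (by positivity)
    have hev : ∀ᶠ p : ℕ in atTop, 6 * A < Real.exp (p * (Real.log (r / m) / 2)) := by
      have h3 : Tendsto (fun p : ℕ => Real.exp (p * (Real.log (r / m) / 2))) atTop atTop :=
        Real.tendsto_exp_atTop.comp (tendsto_natCast_atTop_atTop.atTop_mul_const (by positivity))
      exact h3.eventually_gt_atTop _
    obtain ⟨P, hP⟩ := eventually_atTop.1 hev
    refine ⟨ε, hε0, min_le_left _ _, P, fun p q hp hpq hle _ => ?_⟩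
    obtain ⟨h, rfl⟩ := Nat.exists_eq_add_of_le hpq
    rw [Nat.add_sub_cancel_left, ← hA]
    refine of_abs (pow_nonneg hA0.le h) ?_
    rw [hD]
    have h3 := hP p hp
    push_cast at hle
    have hh : (h : ℝ) ≤ Real.log (r / m) / (2 * Real.log A) * p := by
      have : ε * p ≤ Real.log (r / m) / (2 * Real.log A) * p :=
        mul_le_mul_of_nonneg_right (min_le_right _ _) (Nat.cast_nonneg _)
      linarith
    have hXle : A ^ h ≤ Real.exp (p * (Real.log (r / m) / 2)) := by
      have e : A ^ h = Real.exp (h * Real.log A) := by rw [Real.exp_nat_mul, Real.exp_log hA0]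
      rw [e, Real.exp_le_exp]
      calc (h : ℝ) * Real.log A ≤ (Real.log (r / m) / (2 * Real.log A) * p) * Real.log A :=
            mul_le_mul_of_nonneg_right hh hlA.le
        _ = p * (Real.log (r / m) / 2) := by field_simp
    have hrp : r ^ p = m ^ p * (Real.exp (p * (Real.log (r / m) / 2)) *
        Real.exp (p * (Real.log (r / m) / 2))) := by
      rw [← Real.exp_add]
      have e : (p : ℝ) * (Real.log (r / m) / 2) + p * (Real.log (r / m) / 2) = p * Real.log (r / m) := by
        ring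
      rw [e, Real.exp_nat_mul, Real.exp_log (by linarith), ← mul_pow, mul_div_cancel₀ _ hm0.ne']
    have hmp : 0 < m ^ p := pow_pos hm0 p
    have hXp := hX h
    set Z := Real.exp (p * (Real.log (r / m) / 2)) with hZ
    have hZ0 : 0 < Z := Real.exp_pos _
    have h4 := (hU p h).2
    have h5 := (hV (p + h)).1
    have h6 : r ^ p / (2 * A) ≤ r ^ (p + h) / (2 * A) := by
      refine div_le_div_of_nonneg_right ?_ (by positivity)
      exact pow_le_pow_right₀ (by linarith) (by omega)
    have h7 := abs_sub_abs_le_abs_sub (B' ^ (p + h) / (A - B')) (A ^ h * (B ^ p / (A - B)))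
    rw [abs_sub_comm (B' ^ (p + h) / (A - B'))] at h7
    have h8 : 3 * (A ^ h * m ^ p) < r ^ p / (2 * A) := by
      rw [lt_div_iff₀ (by positivity), hrp]
      calc 3 * (A ^ h * m ^ p) * (2 * A) = m ^ p * (A ^ h * (6 * A)) := by ring
        _ ≤ m ^ p * (Z * (6 * A)) := by gcongr
        _ < m ^ p * (Z * Z) := by gcongr
    have h9 : A ^ h * s ^ p ≤ A ^ h * m ^ p :=
      mul_le_mul_of_nonneg_left (pow_le_pow_left₀ hs0 (le_max_left _ _) p) (by positivity)
    have h10 : A ^ h ≤ A ^ h * m ^ p := by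
      have : 1 ≤ m ^ p := one_le_pow₀ hm1
      nlinarith
    linarith

end Pool.Agent.Zk96.JP
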