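import Mathlib
import Pool.Agent.Zk96.JP.Gap

set_option autoImplicit false

/-!
# Unions; the weights of the diagonal
-/

namespace Pool.Agent.Zk96.JP

open Finset Filter Topology MeasureTheory
open Pool.Agent.TH888.R (wt wt_nonneg VS Pt gr one_le_gr VS_nonneg loglog_nonneg cS)
open Pool.Agent.H305R2 (roughPart)

open Classical in
lemma union_close {ι : Type*} (F : Finset ι) (S : Set ℕ) (w : ι → ℕ → Prop)
    (hfin : ∀ x ∈ F, ∀ y ∈ F, x ≠ y → {p : ℕ | p.Prime ∧ w x p ∧ w y p}.Finite) :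
    ∃ D : ℝ, 0 ≤ D ∧ ∀ n : ℕ, |(((range (n + 1)).filter
      (fun p => p.Prime ∧ p ∈ S ∧ ∃ x ∈ F, w x p)).card : ℝ) -
      ∑ x ∈ F, (((range (n + 1)).filter (fun p => p.Prime ∧ p ∈ S ∧ w x p)).card : ℝ)| ≤ D := by
  have hE : (⋃ x ∈ F, ⋃ y ∈ F, (if x ≠ y then {p : ℕ | p.Prime ∧ w x p ∧ w y p} else ∅)).Finite := by
    refine F.finite_toSet.biUnion fun x hx => F.finite_toSet.biUnion fun y hy => ?_
    split_ifs with h
    · exact hfin x hx y hy h
    · exact Set.finite_empty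
  obtain ⟨P, hP⟩ := hE.bddAbove
  have key : ∀ p : ℕ, P < p → p.Prime → ∀ x ∈ F, ∀ y ∈ F, w x p → w y p → x = y := by
    intro p hp hpp x hx y hy hwx hwy
    by_contra hne
    refine absurd (hP (?_ : p ∈ _)) (not_le.2 hp)
    simp only [Set.mem_iUnion]
    refine ⟨x, hx, y, hy, ?_⟩
    rw [if_pos hne]
    exact ⟨hpp, hwx, hwy⟩
  refine ⟨((P + 1 : ℕ) : ℝ) * (F.card + 1), by positivity, fun n => ?_⟩
  have e1 : (((range (n + 1)).filter (fun p => p.Prime ∧ p ∈ S ∧ ∃ x ∈ F, w x p)).card : ℝ) =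
      ∑ p ∈ range (n + 1), if p.Prime ∧ p ∈ S ∧ ∃ x ∈ F, w x p then (1 : ℝ) else 0 := by
    rw [Finset.card_eq_sum_ones, Finset.sum_filter]
    push_cast
    rfl
  have e2 : ∑ x ∈ F, (((range (n + 1)).filter (fun p => p.Prime ∧ p ∈ S ∧ w x p)).card : ℝ) =
      ∑ p ∈ range (n + 1), ∑ x ∈ F, if p.Prime ∧ p ∈ S ∧ w x p then (1 : ℝ) else 0 := by
    rw [Finset.sum_comm]
    refine Finset.sum_congr rfl fun x _ => ?_
    rw [Finset.card_eq_sum_ones, Finset.sum_filter]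
    push_cast
    rfl
  rw [e1, e2, ← Finset.sum_sub_distrib]
  refine (Finset.abs_sum_le_sum_abs _ _).trans ?_
  have h1 : ∀ p ∈ range (n + 1), |(if p.Prime ∧ p ∈ S ∧ ∃ x ∈ F, w x p then (1 : ℝ) else 0) -
      ∑ x ∈ F, if p.Prime ∧ p ∈ S ∧ w x p then (1 : ℝ) else 0| ≤
      if p < P + 1 then ((F.card : ℝ) + 1) else 0 := by
    intro p _
    by_cases hp : p < P + 1
    · rw [if_pos hp]
      have h2 : 0 ≤ ∑ x ∈ F, (if p.Prime ∧ p ∈ S ∧ w x p then (1 : ℝ) else 0) :=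
        Finset.sum_nonneg fun x _ => by split_ifs <;> norm_num
      have h3 : ∑ x ∈ F, (if p.Prime ∧ p ∈ S ∧ w x p then (1 : ℝ) else 0) ≤ F.card := by
        calc _ ≤ ∑ x ∈ F, (1 : ℝ) := Finset.sum_le_sum fun x _ => by split_ifs <;> norm_num
          _ = _ := by simp
      rw [abs_le]
      split_ifs <;> constructor <;> linarith
    · rw [if_neg hp]
      have hp' : P < p := by omega
      refine le_of_eq (abs_eq_zero.2 (sub_eq_zero.2 ?_))
      by_cases hex : p.Prime ∧ p ∈ S ∧ ∃ x ∈ F, w x p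
      · rw [if_pos hex]
        obtain ⟨hpp, hpS, x0, hx0, hw0⟩ := hex
        rw [Finset.sum_eq_single x0]
        · rw [if_pos ⟨hpp, hpS, hw0⟩]
        · intro x hx hne
          rw [if_neg]
          rintro ⟨_, _, hw⟩
          exact hne (key p hp' hpp x hx x0 hx0 hw hw0)
        · exact fun h => absurd hx0 h
      · rw [if_neg hex]
        symm
        refine Finset.sum_eq_zero fun x hx => ?_
        rw [if_neg]
        rintro ⟨h4, h5, h6⟩
        exact hex ⟨h4, h5, x, hx, h6⟩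
  refine (Finset.sum_le_sum h1).trans ?_
  rw [← Finset.sum_filter, Finset.sum_const, nsmul_eq_mul]
  refine mul_le_mul_of_nonneg_right ?_ (by positivity)
  have h2 : ((range (n + 1)).filter (fun p => p < P + 1)).card ≤ P + 1 := by
    calc _ ≤ (range (P + 1)).card := Finset.card_le_card fun q hq => by
            rw [mem_filter] at hq
            exact mem_range.2 hq.2
      _ = P + 1 := Finset.card_range _
  exact_mod_cast h2

open Classical in
/-- the law for the union -/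
lemma union_law {ι : Type*} (F : Finset ι) (S : Set ℕ) (s : ι → ℕ → ℕ) (c : ι → ℝ)
    (hfin : ∀ x ∈ F, ∀ y ∈ F, x ≠ y →
      {p : ℕ | p.Prime ∧ (roughPart p (s x p)).Prime ∧ (roughPart p (s y p)).Prime}.Finite)
    (hpt : ∀ x ∈ F, Pt (s x) (c x) S) (ht : Tendsto (VS S) atTop atTop) :
    ∃ B : ℝ, 0 ≤ B ∧ ∀ n : ℕ, 3 ≤ n → |(((range (n + 1)).filter
      (fun p => p.Prime ∧ p ∈ S ∧ ∃ x ∈ F, (roughPart p (s x p)).Prime)).card : ℝ) -
      (∑ x ∈ F, c x) * VS S n| ≤ B * gr (VS S n * (1 + Real.log (Real.log n))) := by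
  obtain ⟨D, hD, hDn⟩ := union_close F S (fun x p => (roughPart p (s x p)).Prime) hfin
  have h1 : ∀ x ∈ F, ∃ B : ℝ, 0 ≤ B ∧ ∀ n : ℕ, 3 ≤ n →
      |(cS S (s x) n : ℝ) - c x * VS S n| ≤ B * gr (VS S n * (1 + Real.log (Real.log n))) :=
    fun x hx => (hpt x hx).law ht
  choose! B hB hBn using h1
  refine ⟨D + ∑ x ∈ F, B x, add_nonneg hD (Finset.sum_nonneg fun x hx => hB x hx), fun n hn => ?_⟩
  have hg : 1 ≤ gr (VS S n * (1 + Real.log (Real.log n))) := by
    refine one_le_gr ?_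
    have := loglog_nonneg hn
    have := VS_nonneg S n
    positivity
  have h2 : |(((range (n + 1)).filter
      (fun p => p.Prime ∧ p ∈ S ∧ ∃ x ∈ F, (roughPart p (s x p)).Prime)).card : ℝ) -
      ∑ x ∈ F, (((range (n + 1)).filter (fun p => p.Prime ∧ p ∈ S ∧
        (roughPart p (s x p)).Prime)).card : ℝ)| ≤ D := by
    convert hDn n
  have h3 : |∑ x ∈ F, (((range (n + 1)).filter (fun p => p.Prime ∧ p ∈ S ∧
      (roughPart p (s x p)).Prime)).card : ℝ) - (∑ x ∈ F, c x) * VS S n| ≤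
      (∑ x ∈ F, B x) * gr (VS S n * (1 + Real.log (Real.log n))) := by
    rw [Finset.sum_mul, Finset.sum_mul, ← Finset.sum_sub_distrib]
    exact (Finset.abs_sum_le_sum_abs _ _).trans (Finset.sum_le_sum fun x hx => hBn x hx n hn)
  refine (abs_sub_le _ (∑ x ∈ F, (((range (n + 1)).filter (fun p => p.Prime ∧ p ∈ S ∧
      (roughPart p (s x p)).Prime)).card : ℝ)) _).trans ?_
  rw [add_mul]
  refine add_le_add (h2.trans ?_) h3
  nlinarith

/-- the squares of the weights are summable -/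
lemma summable_sq : Summable fun n : ℕ => wt n * wt n := by
  have h1 : Summable fun n : ℕ => 16 * ((n : ℝ) ^ (-(3 / 2) : ℝ)) :=
    (Real.summable_nat_rpow.2 (by norm_num)).mul_left 16
  refine Summable.of_nonneg_of_le (fun n => mul_nonneg (wt_nonneg n) (wt_nonneg n)) (fun n => ?_) h1
  rcases Nat.eq_zero_or_pos n with h0 | h0
  · subst h0
    unfold Pool.Agent.TH888.R.wt
    simp
  · have hn : (0 : ℝ) < n := by exact_mod_cast h0
    have h2 : Real.log n ≤ (n : ℝ) ^ ((1 : ℝ) / 4) / (1 / 4) := Real.log_le_rpow_div hn.le (by norm_num)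
    have h3 : 0 ≤ Real.log n := Real.log_natCast_nonneg n
    have h4 : wt n ≤ 4 * (n : ℝ) ^ (-(3 / 4) : ℝ) := by
      unfold Pool.Agent.TH888.R.wt
      rw [div_le_iff₀ hn]
      have e : 4 * (n : ℝ) ^ (-(3 / 4) : ℝ) * n = (n : ℝ) ^ ((1 : ℝ) / 4) / (1 / 4) := by
        have e2 : (n : ℝ) ^ (-(3 / 4) : ℝ) * n = (n : ℝ) ^ ((1 : ℝ) / 4) := by
          nth_rewrite 2 [← Real.rpow_one (n : ℝ)]
          rw [← Real.rpow_add hn]
          norm_num
        rw [mul_assoc, e2]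
        ring
      rw [e]
      exact h2
    calc wt n * wt n ≤ (4 * (n : ℝ) ^ (-(3 / 4) : ℝ)) * (4 * (n : ℝ) ^ (-(3 / 4) : ℝ)) :=
          mul_le_mul h4 h4 (wt_nonneg n) (by positivity)
      _ = 16 * ((n : ℝ) ^ (-(3 / 4) : ℝ) * (n : ℝ) ^ (-(3 / 4) : ℝ)) := by ring
      _ = _ := by rw [← Real.rpow_add hn]; norm_num

end Pool.Agent.Zk96.JP
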