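import Mathlib
import Pool.Agent.Zk96.JP.Union
import Pool.Agent.H447R2.ML.Spec

set_option autoImplicit false

/-!
# The Lenstra-Pomerance-Wagstaff model: different pairs `(a, b)` are simultaneously prime only
finitely often

For integers `a > 1`, `-a < b < a`, a real `β > 0` and a prime `p` let `W a b β p` be the `p`-rough
part (the product, with multiplicity, of the prime factors larger than `p`) of
`⌊β a ^ p - b ^ p / (a - b)⌋`.  At the amplitude `β = 1 / (a - b)` this is `(a ^ p - b ^ p) / (a - b)`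
itself, for coprime `a`, `b` and `p` prime to `a - b`.  For one pair `(a, b)` and almost every `β` the
law of the conjecture for `W a b β p` is known (starting files `FixedPairLaw`, `SetsOfExponents`).
Here we compare two pairs `(a, b) ≠ (a', b')` at the same amplitude, where it is assumed that one of
`|b|`, `|b'|` is at least two if `a = a'` (`Apart`), or that the two pairs are `(2, 1)` and `(2, -1)`
(`Mers`), the pairs of the Mersenne numbers `2 ^ p - 1` and the Wagstaff numbers `(2 ^ p + 1) / 3`.  (For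
`a = a' ≥ 3` and `|b|, |b'| ≤ 1` the two integers are equal for many exponents.)

(1) For almost every `β > 0`, simultaneously for all such pairs, `W a b β p` and `W a' b' β p` are both
prime only for finitely many primes `p`.  (For `(2, 1)` and `(2, -1)` this is the analogue of the
expectation, related to the New Mersenne Conjecture, that `2 ^ p - 1` and `(2 ^ p + 1) / 3` are both
prime only for finitely many `p`.)

(2) Let `R` be a set of pairs of primes such that the sum of `(log p / p) (log q / q)` over the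
`(p, q)` in `R` converges.  For almost every `β > 0`, simultaneously for all pairs `(a, b)`,
`(a', b')` with `Apart`, if `a ≠ a'` those with `|q log a' - p log a| ≥ δ (p + q)` for some `δ > 0` and all but finitely
many `(p, q)` in `R`, the numbers `W a b β p` and `W a' b' β q` are both prime only for finitely many
`(p, q)` in `R`.  Here `(a', b') = (a, b)` is allowed if `|b| ≥ 2` and `p ≠ q` for all `(p, q)` in `R`.

(3) For every sequence of sets `S i` of exponents and almost every `β > 0`, simultaneously for all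
finite sets `F` of pairs, any two of which satisfy `Apart` or `Mers`, the number of
primes `p ≤ n` in `S i` for which `W a b β p` is prime for at least one `(a, b)` in `F` is
`(∑ e ^ γ / log a) V + O((V L) ^ (1/2) (log (V L)) ^ 2)`, `V` the sum of `log p / p` over the primes `p ≤ n`
in `S i`, `L = log log n`, whenever `V` is unbounded; and for all the primes the number is
`(∑ e ^ γ / log a) log n + O((log n) ^ (1/2) (log log n) ^ (5/2))`.
-/

namespace Pool.Agent.Zk96.JP.JL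

open Filter Topology MeasureTheory Asymptotics

/-- The product, with multiplicity, of the prime factors of `m` that are larger than `p`. -/
def roughPart (p m : ℕ) : ℕ := (m.primeFactorsList.filter (fun r => p < r)).prod

/-- The `p`-rough part of `⌊β a ^ p - b ^ p / (a - b)⌋`. -/
noncomputable def W (a b : ℤ) (β : ℝ) (p : ℕ) : ℕ :=
  roughPart p ⌊β * (a : ℝ) ^ p - (b : ℝ) ^ p / ((a : ℝ) - b)⌋₊

/-- `a > 1` and `-a < b < a`. -/
def Pair (x : ℤ × ℤ) : Prop := 1 < x.1 ∧ -x.1 < x.2 ∧ x.2 < x.1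

/-- `a ≠ a'` or `|b| ≥ 2` or `|b'| ≥ 2`. -/
def Apart (x y : ℤ × ℤ) : Prop := x.1 ≠ y.1 ∨ 2 ≤ |x.2| ∨ 2 ≤ |y.2|

/-- `(a, b)`, `(a', b')` are `(2, 1)`, `(2, -1)` or `(2, -1)`, `(2, 1)`. -/
def Mers (x y : ℤ × ℤ) : Prop := x.1 = 2 ∧ y.1 = 2 ∧ x.2 * y.2 = -1

open Classical in
/-- The number of primes `p ≤ n` in the set `S` for which `W a b β p` is prime for at least one
`(a, b)` in `F`. -/
noncomputable def U (S : Set ℕ) (F : Finset (ℤ × ℤ)) (β : ℝ) (n : ℕ) : ℕ :=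
  ((Finset.range (n + 1)).filter
    (fun p => p.Prime ∧ p ∈ S ∧ ∃ x ∈ F, (W x.1 x.2 β p).Prime)).card

open Classical in
/-- The sum of `log p / p` over the primes `p ≤ n` in the set `S`. -/
noncomputable def V (S : Set ℕ) (n : ℕ) : ℝ :=
  ∑ p ∈ (Finset.range (n + 1)).filter (fun p => p.Prime ∧ p ∈ S), Real.log p / p

lemma V_eq (S : Set ℕ) : V S = Pool.Agent.TH888.R.VS S := by
  classical
  funext n
  unfold V Pool.Agent.TH888.R.VS
  rw [Finset.sum_filter]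
  refine Finset.sum_congr rfl fun p _ => ?_
  by_cases h : p.Prime ∧ p ∈ S
  · rw [if_pos h, if_pos ⟨h.2, h.1⟩]
    rfl
  · rw [if_neg h, if_neg fun h1 => h ⟨h1.2, h1.1⟩]

/-- The special amplitude. -/
lemma special {a b : ℤ} (hab : IsCoprime a b) (h1 : -a < b) (h2 : b < a) {p : ℕ} (hp : p.Prime)
    (hpd : ¬ (p : ℤ) ∣ a - b) : (W a b (1 / ((a : ℝ) - b)) p : ℤ) * (a - b) = a ^ p - b ^ p := by
  have h := Pool.Agent.H447R2.ML.rough_quot hab h1 h2 hp hpd rfl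
  have hgeom : (∑ i ∈ Finset.range p, a ^ i * b ^ (p - 1 - i)) * (a - b) = a ^ p - b ^ p :=
    (Commute.all a b).geom_sum₂_mul p
  rw [← h] at hgeom
  exact hgeom

/-- a pair as a shift family -/
lemma pair_nat {x : ℤ × ℤ} (h : Pair x) : ∃ A : ℕ, x.1 = A ∧ 2 ≤ A ∧ |x.2| < A := by
  obtain ⟨h1, h2, h3⟩ := h
  obtain ⟨A, hA⟩ := Int.eq_ofNat_of_zero_le (show 0 ≤ x.1 by omega)
  exact ⟨A, hA, by omega, by rw [← hA]; exact abs_lt.2 ⟨h2, h3⟩⟩

lemma pt (x : ℤ × ℤ) (h : Pair x) (S : Set ℕ) : ∀ᵐ β : ℝ, 0 < β →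
    Pool.Agent.TH888.R.Pt (fun p => ⌊β * (x.1 : ℝ) ^ p - (x.2 : ℝ) ^ p / ((x.1 : ℝ) - x.2)⌋₊)
      (Real.exp Real.eulerMascheroniConstant / Real.log x.1) S := by
  obtain ⟨A, hA, hA2, hb⟩ := pair_nat h
  obtain ⟨_, κ, C, hκ0, hκ, hg⟩ := Pool.Agent.Zk96.JP.sf_gs hA2 hb
  have hA1 : (1 : ℝ) < (A : ℝ) := by exact_mod_cast (by omega : 1 < A)
  have key := Pool.Agent.TH888.R.pt_floor hA1 hκ0 hκ hg
    (Pool.Agent.TH888.R.near_base hA2 hκ0 hκ hg) S
  have e : (x.1 : ℝ) = (A : ℝ) := by rw [hA]; simp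
  rw [e]
  unfold Pool.Agent.Zk96.JP.gs at key
  simp only [sub_eq_add_neg] at key ⊢
  exact key

/-- The condition on the pairs and the set of pairs of exponents. -/
def Sep (R : Set (ℕ × ℕ)) (x y : ℤ × ℤ) : Prop :=
  Apart x y ∧ (x.1 ≠ y.1 → ∃ δ : ℝ, 0 < δ ∧ {z | z ∈ R ∧
    |(z.2 : ℝ) * Real.log y.1 - z.1 * Real.log x.1| < δ * (z.1 + z.2)}.Finite) ∧
  (x = y → ∀ z ∈ R, z.1 ≠ z.2)

open Pool.Agent.Zk96.JP in
lemma jb {R : Set (ℕ × ℕ)} (hR : ∀ z ∈ R, z.1.Prime ∧ z.2.Prime) {x y : ℤ × ℤ} {A A' : ℕ}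
    (hA : x.1 = A) (hA' : y.1 = A') (hA2 : 2 ≤ A) (hA2' : 2 ≤ A') (hb : |x.2| < A) (hb' : |y.2| < A')
    (h : Sep R x y) : JB A A' (gs A x.2) (gs A' y.2) R := by
  obtain ⟨h1, h2, h3⟩ := h
  have eA : (x.1 : ℝ) = (A : ℝ) := by rw [hA]; simp
  have eA' : (y.1 : ℝ) = (A' : ℝ) := by rw [hA']; simp
  by_cases hxy : x.1 = y.1
  · have hAA : A' = A := by
      rw [hA, hA'] at hxy
      exact_mod_cast hxy.symm
    subst hAA
    have h4 : 2 ≤ |x.2| ∨ 2 ≤ |y.2| := h1.resolve_left (fun h => h hxy)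
    have hG := gap hA2 hb hb' h4
    have hG2 := gap hA2 hb' hb h4.symm
    have hG2' : GapP A' (gs A' y.2) (gs A' x.2) (okP x.2 y.2) := by
      obtain ⟨ε, h5, h6, P, hP⟩ := hG2
      exact ⟨ε, h5, h6, P, fun p q hp hpq hle hok => hP p q hp hpq hle
        ⟨hok.1, hok.2.1, hok.2.2.imp (fun h => h.symm) id⟩⟩
    have hJ : JB A' A' (gs A' x.2) (gs A' y.2) {z | z ∈ R ∧ Odd z.1 ∧ Odd z.2} := by
      refine jb_same (sf_gs hA2 hb) (sf_gs hA2 hb') hG hG2' fun z hz => ?_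
      have h5 : x.2 ≠ y.2 ∨ z.1 ≠ z.2 := by
        by_cases h6 : x.2 = y.2
        · exact Or.inr (h3 (Prod.ext hxy h6) z hz.1)
        · exact Or.inl h6
      exact ⟨⟨hz.2.1, hz.2.2, h5⟩, ⟨hz.2.2, hz.2.1, h5.imp id fun h => h.symm⟩⟩
    intro b0
    obtain ⟨K, hK, P, hP⟩ := hJ b0
    refine ⟨K, hK, max P 3, fun z hz h5 h6 => hP z ⟨hz, ?_, ?_⟩ ((le_max_left _ _).trans h5)
      ((le_max_left _ _).trans h6)⟩
    · have := (le_max_right P 3).trans h5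
      exact (hR z hz).1.odd_of_ne_two (by omega)
    · have := (le_max_right P 3).trans h6
      exact (hR z hz).2.odd_of_ne_two (by omega)
  · obtain ⟨δ, hδ, hfin⟩ := h2 hxy
    have hJ : JB A A' (gs A x.2) (gs A' y.2) {z | z ∈ R ∧
        ¬ |(z.2 : ℝ) * Real.log y.1 - z.1 * Real.log x.1| < δ * (z.1 + z.2)} := by
      refine jb_diff (sf_gs hA2 hb) (sf_gs hA2' hb') hδ fun z hz => ?_
      have h5 := not_lt.1 hz.2
      rw [eA, eA', mul_comm (z.2 : ℝ), mul_comm (z.1 : ℝ)] at h5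
      exact h5
    intro b0
    obtain ⟨K, hK, P, hP⟩ := hJ b0
    obtain ⟨Q, hQ⟩ := (hfin.image Prod.fst).bddAbove
    refine ⟨K, hK, max P (Q + 1), fun z hz h5 h6 => hP z ⟨hz, fun h7 => ?_⟩
      ((le_max_left _ _).trans h5) ((le_max_left _ _).trans h6)⟩
    have h8 : z.1 ≤ Q := hQ ⟨z, ⟨hz, h7⟩, rfl⟩
    have := (le_max_right P (Q + 1)).trans h5
    omega

/-- all pairs at once -/
lemma all_two {P : ℝ → ℤ × ℤ → ℤ × ℤ → Prop} {H : ℤ × ℤ → ℤ × ℤ → Prop}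
    (h : ∀ x y : ℤ × ℤ, H x y → ∀ᵐ β : ℝ, 0 < β → P β x y) :
    ∀ᵐ β : ℝ, 0 < β → ∀ x y : ℤ × ℤ, H x y → P β x y := by
  have h' : ∀ x y : ℤ × ℤ, ∀ᵐ β : ℝ, H x y → 0 < β → P β x y := by
    intro x y
    by_cases hc : H x y
    · filter_upwards [h x y hc] with β hβ _
      exact hβ
    · exact Eventually.of_forall fun β h1 => absurd h1 hc
  filter_upwards [ae_all_iff.2 fun x => ae_all_iff.2 (h' x)] with β hβ h0 x y hxy
  exact hβ x y hxy h0

lemma two {R : Set (ℕ × ℕ)} (hR : ∀ z ∈ R, z.1.Prime ∧ z.2.Prime)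
    (hs : Summable fun z : R => Real.log z.1.1 / z.1.1 * (Real.log z.1.2 / z.1.2)) :
    ∀ᵐ β : ℝ, 0 < β → ∀ x y : ℤ × ℤ, (Pair x ∧ Pair y ∧ Sep R x y) →
      {z | z ∈ R ∧ (W x.1 x.2 β z.1).Prime ∧ (W y.1 y.2 β z.2).Prime}.Finite := by
  refine all_two fun x y ⟨hx, hy, hsep⟩ => ?_
  obtain ⟨A, hA, hA2, hb⟩ := pair_nat hx
  obtain ⟨A', hA', hA2', hb'⟩ := pair_nat hy
  have key := Pool.Agent.Zk96.JP.joint (Pool.Agent.Zk96.JP.sf_gs hA2 hb)
    (Pool.Agent.Zk96.JP.sf_gs hA2' hb') hR hs (jb hR hA hA' hA2 hA2' hb hb' hsep)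
  have eA : (x.1 : ℝ) = (A : ℝ) := by rw [hA]; simp
  have eA' : (y.1 : ℝ) = (A' : ℝ) := by rw [hA']; simp
  unfold W
  rw [eA, eA']
  unfold Pool.Agent.Zk96.JP.gs at key
  simp only [sub_eq_add_neg] at key ⊢
  exact key

lemma diag_prime : ∀ z ∈ ({z | z.1.Prime ∧ z.1 = z.2} : Set (ℕ × ℕ)), z.1.Prime ∧ z.2.Prime :=
  fun _ hz => ⟨hz.1, hz.2 ▸ hz.1⟩

lemma diag_summable : Summable fun z : ({z | z.1.Prime ∧ z.1 = z.2} : Set (ℕ × ℕ)) =>
    Real.log z.1.1 / z.1.1 * (Real.log z.1.2 / z.1.2) := by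
  have hinj : Function.Injective fun z : ({z | z.1.Prime ∧ z.1 = z.2} : Set (ℕ × ℕ)) => z.1.1 := by
    intro z z' h
    refine Subtype.ext (Prod.ext h ?_)
    rw [← z.2.2, ← z'.2.2]
    exact h
  refine (Pool.Agent.Zk96.JP.summable_sq.comp_injective hinj).congr fun z => ?_
  simp only [Function.comp]
  rw [← z.2.2]
  rfl

lemma diag_apart : ∀ᵐ β : ℝ, 0 < β → ∀ x y : ℤ × ℤ, (Pair x ∧ Pair y ∧ x ≠ y ∧ Apart x y) →
    {p : ℕ | p.Prime ∧ (W x.1 x.2 β p).Prime ∧ (W y.1 y.2 β p).Prime}.Finite := by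
  filter_upwards [two diag_prime diag_summable] with β hβ h0 x y ⟨hx, hy, hne, hap⟩
  have hsep : Sep {z | z.1.Prime ∧ z.1 = z.2} x y := by
    refine ⟨hap, fun hxy => ?_, fun h => absurd h hne⟩
    have hlog : Real.log y.1 - Real.log x.1 ≠ 0 := by
      intro h
      have hx0 : (0 : ℝ) < x.1 := by exact_mod_cast (by linarith [hx.1] : 0 < x.1)
      have hy0 : (0 : ℝ) < y.1 := by exact_mod_cast (by linarith [hy.1] : 0 < y.1)
      have := Real.log_injOn_pos (Set.mem_Ioi.2 hy0) (Set.mem_Ioi.2 hx0) (by linarith)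
      exact hxy (by exact_mod_cast this.symm)
    refine ⟨|Real.log y.1 - Real.log x.1| / 2, by positivity, ?_⟩
    refine Set.finite_empty.subset ?_
    rintro z ⟨hz, hlt⟩
    rw [← hz.2] at hlt
    have e : (z.1 : ℝ) * Real.log y.1 - z.1 * Real.log x.1 =
        z.1 * (Real.log y.1 - Real.log x.1) := by ring
    rw [e, abs_mul, abs_of_nonneg (Nat.cast_nonneg _)] at hlt
    exact absurd hlt (not_lt.2 (le_of_eq (by ring)))
  have h1 := hβ h0 x y ⟨hx, hy, hsep⟩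
  refine (h1.image Prod.fst).subset ?_
  rintro p ⟨hp, h2, h3⟩
  exact ⟨(p, p), ⟨⟨hp, rfl⟩, h2, h3⟩, rfl⟩

open Pool.Agent.Zk96.JP in
/-- the pairs `(2, 1)` and `(2, -1)` -/
lemma mersenne : ∀ᵐ β : ℝ, 0 < β →
    {p : ℕ | p.Prime ∧ (W 2 1 β p).Prime ∧ (W 2 (-1) β p).Prime}.Finite := by
  have h1 : SF 2 (gs 2 1) := sf_gs le_rfl (by norm_num)
  have h2 : SF 2 (gs 2 (-1)) := sf_gs le_rfl (by norm_num)
  have hJ : JB 2 2 (gs 2 1) (gs 2 (-1)) {z | z.1 = z.2 ∧ Odd z.1} :=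
    jb_same h1 h2 gap_mersenne.1 gap_mersenne.2 fun z hz => ⟨hz, ⟨hz.1.symm, hz.1 ▸ hz.2⟩⟩
  have hJ' : JB 2 2 (gs 2 1) (gs 2 (-1)) {z | z.1.Prime ∧ z.1 = z.2} := by
    intro b0
    obtain ⟨K, hK, P, hP⟩ := hJ b0
    refine ⟨K, hK, max P 3, fun z hz h5 h6 => hP z ⟨hz.2, ?_⟩ ((le_max_left _ _).trans h5)
      ((le_max_left _ _).trans h6)⟩
    have := (le_max_right P 3).trans h5
    exact hz.1.odd_of_ne_two (by omega)
  filter_upwards [joint h1 h2 diag_prime diag_summable hJ'] with β hβ h0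
  refine ((hβ h0).image Prod.fst).subset ?_
  rintro p ⟨hp, h3, h4⟩
  refine ⟨(p, p), ⟨⟨hp, rfl⟩, ?_, ?_⟩, rfl⟩
  · unfold W at h3
    unfold gs
    push_cast at h3 ⊢
    rw [← sub_eq_add_neg]
    exact h3
  · unfold W at h4
    unfold gs
    push_cast at h4 ⊢
    rw [← sub_eq_add_neg]
    exact h4

lemma diag : ∀ᵐ β : ℝ, 0 < β → ∀ x y : ℤ × ℤ, (Pair x ∧ Pair y ∧ x ≠ y ∧ (Apart x y ∨ Mers x y)) →
    {p : ℕ | p.Prime ∧ (W x.1 x.2 β p).Prime ∧ (W y.1 y.2 β p).Prime}.Finite := by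
  filter_upwards [diag_apart, mersenne] with β h1 h2 h0 x y ⟨hx, hy, hne, h⟩
  rcases h with h | ⟨hx2, hy2, hm⟩
  · exact h1 h0 x y ⟨hx, hy, hne, h⟩
  · rw [hx2, hy2]
    rcases Int.mul_eq_neg_one_iff_eq_one_or_neg_one.1 hm with ⟨e1, e2⟩ | ⟨e1, e2⟩
    · rw [e1, e2]
      exact h2 h0
    · rw [e1, e2]
      exact (h2 h0).subset fun p hp => ⟨hp.1, hp.2.2, hp.2.1⟩

/-- **Joint laws for different pairs.** -/
theorem result :
    (∀ a b : ℤ, IsCoprime a b → -a < b → b < a → ∀ p : ℕ, p.Prime → ¬ (p : ℤ) ∣ a - b →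
      (W a b (1 / ((a : ℝ) - b)) p : ℤ) * (a - b) = a ^ p - b ^ p) ∧
    (∀ᵐ β : ℝ, 0 < β → ∀ x y : ℤ × ℤ, Pair x → Pair y → x ≠ y → Apart x y ∨ Mers x y →
      {p : ℕ | p.Prime ∧ (W x.1 x.2 β p).Prime ∧ (W y.1 y.2 β p).Prime}.Finite) ∧
    (∀ R : Set (ℕ × ℕ), (∀ z ∈ R, z.1.Prime ∧ z.2.Prime) →
      (Summable fun z : R => Real.log z.1.1 / z.1.1 * (Real.log z.1.2 / z.1.2)) →
      ∀ᵐ β : ℝ, 0 < β → ∀ x y : ℤ × ℤ, Pair x → Pair y → Sep R x y →
        {z | z ∈ R ∧ (W x.1 x.2 β z.1).Prime ∧ (W y.1 y.2 β z.2).Prime}.Finite) ∧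
    (∀ᵐ β : ℝ, 0 < β → ∀ F : Finset (ℤ × ℤ), (∀ x ∈ F, Pair x) →
      (∀ x ∈ F, ∀ y ∈ F, x ≠ y → Apart x y ∨ Mers x y) →
      (fun n : ℕ => (U Set.univ F β n : ℝ) -
        (∑ x ∈ F, Real.exp Real.eulerMascheroniConstant / Real.log x.1) * Real.log n) =O[atTop]
      (fun n : ℕ => Real.sqrt (Real.log n) * (Real.log (Real.log n)) ^ ((5 : ℝ) / 2))) ∧
    (∀ S : ℕ → Set ℕ, ∀ᵐ β : ℝ, 0 < β → ∀ F : Finset (ℤ × ℤ), (∀ x ∈ F, Pair x) →
      (∀ x ∈ F, ∀ y ∈ F, x ≠ y → Apart x y ∨ Mers x y) → ∀ i : ℕ, Tendsto (V (S i)) atTop atTop →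
      (fun n : ℕ => (U (S i) F β n : ℝ) -
        (∑ x ∈ F, Real.exp Real.eulerMascheroniConstant / Real.log x.1) * V (S i) n) =O[atTop]
      (fun n : ℕ => Real.sqrt (V (S i) n * Real.log (Real.log n)) *
        (Real.log (V (S i) n * Real.log (Real.log n))) ^ 2)) := by
  have hpt : ∀ S : Set ℕ, ∀ᵐ β : ℝ, 0 < β → ∀ x : ℤ × ℤ, Pair x →
      Pool.Agent.TH888.R.Pt (fun p => ⌊β * (x.1 : ℝ) ^ p - (x.2 : ℝ) ^ p / ((x.1 : ℝ) - x.2)⌋₊)
      (Real.exp Real.eulerMascheroniConstant / Real.log x.1) S := by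
    intro S
    have h' : ∀ x : ℤ × ℤ, ∀ᵐ β : ℝ, Pair x → 0 < β →
        Pool.Agent.TH888.R.Pt (fun p => ⌊β * (x.1 : ℝ) ^ p - (x.2 : ℝ) ^ p / ((x.1 : ℝ) - x.2)⌋₊)
        (Real.exp Real.eulerMascheroniConstant / Real.log x.1) S := by
      intro x
      by_cases hc : Pair x
      · filter_upwards [pt x hc S] with β hβ _
        exact hβ
      · exact Eventually.of_forall fun β h1 => absurd h1 hc
    filter_upwards [ae_all_iff.2 h'] with β hβ h0 x hx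
    exact hβ x hx h0
  have hlaw : ∀ (β : ℝ) (F : Finset (ℤ × ℤ)) (S : Set ℕ),
      (∀ x y : ℤ × ℤ, (Pair x ∧ Pair y ∧ x ≠ y ∧ (Apart x y ∨ Mers x y)) →
        {p : ℕ | p.Prime ∧ (W x.1 x.2 β p).Prime ∧ (W y.1 y.2 β p).Prime}.Finite) →
      (∀ x : ℤ × ℤ, Pair x →
        Pool.Agent.TH888.R.Pt (fun p => ⌊β * (x.1 : ℝ) ^ p - (x.2 : ℝ) ^ p / ((x.1 : ℝ) - x.2)⌋₊)
        (Real.exp Real.eulerMascheroniConstant / Real.log x.1) S) →
      (∀ x ∈ F, Pair x) → (∀ x ∈ F, ∀ y ∈ F, x ≠ y → Apart x y ∨ Mers x y) →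
      Tendsto (Pool.Agent.TH888.R.VS S) atTop atTop →
      ∃ B : ℝ, 0 ≤ B ∧ ∀ n : ℕ, 3 ≤ n → |(U S F β n : ℝ) -
        (∑ x ∈ F, Real.exp Real.eulerMascheroniConstant / Real.log x.1) *
          Pool.Agent.TH888.R.VS S n| ≤
        B * Pool.Agent.TH888.R.gr (Pool.Agent.TH888.R.VS S n * (1 + Real.log (Real.log n))) := by
    intro β F S h1 h2 hF hF2 ht
    exact Pool.Agent.Zk96.JP.union_law F S
      (fun x p => ⌊β * (x.1 : ℝ) ^ p - (x.2 : ℝ) ^ p / ((x.1 : ℝ) - x.2)⌋₊)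
      (fun x => Real.exp Real.eulerMascheroniConstant / Real.log x.1)
      (fun x hx y hy hne => h1 x y ⟨hF x hx, hF y hy, hne, hF2 x hx y hy hne⟩)
      (fun x hx => h2 x (hF x hx)) ht
  refine ⟨fun a b hab h1 h2 p hp hpd => special hab h1 h2 hp hpd, ?_, fun R hR hs => ?_, ?_,
    fun S => ?_⟩
  · filter_upwards [diag] with β hβ h0 x y hx hy hne hap
    exact hβ h0 x y ⟨hx, hy, hne, hap⟩
  · filter_upwards [two hR hs] with β hβ h0 x y hx hy hsep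
    exact hβ h0 x y ⟨hx, hy, hsep⟩
  · filter_upwards [diag, hpt Set.univ] with β h1 h2 h0 F hF hF2
    obtain ⟨B, hB, h⟩ := hlaw β F Set.univ (h1 h0) (h2 h0) hF hF2
      Pool.Agent.TH888.R.VS_univ_tendsto
    exact Pool.Agent.TH888.R.bigO_all hB h
  · filter_upwards [diag, ae_all_iff.2 fun i => hpt (S i)] with β h1 h2 h0 F hF hF2 i ht
    rw [V_eq] at ht ⊢
    obtain ⟨B, hB, h⟩ := hlaw β F (S i) (h1 h0) (h2 i h0) hF hF2 ht
    exact Pool.Agent.TH888.R.bigO_set hB ht h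

end Pool.Agent.Zk96.JP.JL
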